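import Pool.Agent.H80.Proj6

set_option autoImplicit false

open MeasureTheory Pool.Agent.H80.Proj

theorem Pool.Agent.Results.MP_f6b738_gt.Counter.result :
    ∃ K₁ K₂ : Set (EuclideanSpace ℝ (Fin 4)), IsBody K₁ ∧ IsBody K₂ ∧
      (∀ u : EuclideanSpace ℝ (Fin 4), ‖u‖ = 1 →
        (∀ r, 0 ≤ r → projPar (perp u) K₁ r = projPar (perp u) K₂ r) ∧
        ∀ i, projIV i (perp u) K₁ = projIV i (perp u) K₂) ∧
      ∃ S : Submodule ℝ (EuclideanSpace ℝ (Fin 4)), Module.finrank ℝ S = 2 ∧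
        projIV 2 S K₁ ≠ projIV 2 S K₂ := by
  obtain ⟨K₁, K₂, a1, a2, a3, b1, b2, b3, h, S, f, -, g⟩ := Pool.Agent.H80.Proj.main
  exact ⟨K₁, K₂, ⟨a1, a2, a3⟩, ⟨b1, b2, b3⟩, h, S, f, g⟩
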